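import Pool.Agent.H453.PO.Prod

/-!
# The uniform law above the powers of the logarithm in Cramér's model with limited independence

The question: `π(x + y) - π(x) ~ y / log x` for `x → ∞`, uniformly for `(log x) ^ N ≤ y ≤ x`, in the sense that for
every `ε` there is an `N` such that the relative error is at most `ε`.

In Cramér's random model every integer `n ≥ 3` belongs to the random set `A` with probability `1 / log n`, and the
events `n ∈ A` are independent.  In the model with independence of order `κ` only those sets `T` of events have to be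
independent whose number of elements is at most `κ n` for all `n ∈ T`; so only the correlations of order `κ n` near `n` are
those which the conjectures of Hardy and Littlewood predict (without the singular series).  `LawFrom a` says that the
formula holds with a relative error tending to `0` uniformly for `(log x) ^ a ≤ y ≤ x`.

(1) Let `κ n ≥ c log n / log log n` for large `n`.  In EVERY model with independence of order `κ` almost surely the
    question has a positive answer, `LawFrom a` holds for all `a > 2 + 2 / c`, and `LawFrom a` fails for all `a < 2`.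
(2) Let `κ n ≤ c log n / log log n` for all large `n`, or let `κ` be nondecreasing and let this be so for infinitely many `n`.
    Then there is a model with independence of order `κ` in which almost surely for all `a < 2 + 2 / c` there are
    arbitrarily large `x` and `(log x) ^ a ≤ y ≤ x` such that `(x, x + y]` contains no element of the random set; so
    `LawFrom a` fails.
(3) More generally, let `κ n ≤ c log n / log log n` for large `n`.  For every `v` in `[2, 2 + 2 / c]` there is a model with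
    independence of order `κ` in which `v` is almost surely the exact exponent: `LawFrom a` holds for all `a > v` and
    fails for all `a < v`.  So by (1) the exponents of the models are exactly those of the interval `[2, 2 + 2 / c]`, if
    `κ n` is asymptotically `c log n / log log n`.
(4) For nondecreasing `κ` the exponent in all models is determined by the lower limit `λ` of `κ n log log n / log n`:
    for `b ≥ 2`, `LawFrom a` holds almost surely in all models for all `a > b`, if and only if `b ≥ 2 + 2 / λ`.  In particular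
    `LawFrom a` holds almost surely for all `a > 2`, as in Cramér's model, if and only if `λ = ∞`.
(5) Let `κ` be nondecreasing.  The question has almost surely a positive answer in all models with independence of order
    `κ`, if and only if `κ n ≥ c log n / log log n` for some `c > 0` and all large `n`; otherwise there is a model in
    which the answer is almost surely negative.

The proof.  The inequality for the central moment of order `2 ⌊κ / 2⌋` of the number of elements of an interval and the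
passage from a grid to all intervals are the library's (`Q198.CI.good_prob`, `Q198.CI.det_count`, used there for a fixed
order); here the order grows with the scale.  The gaps in every model in (1) come from the partial sums of inclusion and
exclusion and a second moment, for windows of length `(log x) ^ (2 - ε)`.  The models of (2) and (3) are products of
models, one for each of the intervals between the elements of a sparse sequence; those of (5) are the library's.
-/

set_option autoImplicit false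

namespace Pool.Agent.Results.MP_293bbf_nt.ExactOrder

open MeasureTheory Filter Topology

/-- Cramér's model with independence of order `κ`: `E n` is the event that the integer `n` belongs
to the random set. For every finite set `T` of integers `n ≥ 3` with at most `κ n` elements for
all `n ∈ T`, the probability that `T` is contained in the random set is `∏ 1 / log n`. -/
structure CramerModel {Ω : Type} [MeasurableSpace Ω] (P : Measure Ω) (κ : ℕ → ℕ)
    (E : ℕ → Set Ω) : Prop where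
  meas : ∀ n, MeasurableSet (E n)
  indep : ∀ T : Finset ℕ, (∀ n ∈ T, 3 ≤ n ∧ T.card ≤ κ n) →
    P (⋂ n ∈ T, E n) = ENNReal.ofReal (∏ n ∈ T, 1 / Real.log n)

/-- The number of elements of the random set in the interval `(x, x + y]`. -/
noncomputable def count {Ω : Type} (E : ℕ → Set Ω) (ω : Ω) (x y : ℝ) : ℕ :=
  {n : ℕ | x < n ∧ (n : ℝ) ≤ x + y ∧ ω ∈ E n}.ncard

/-- The ratio `R(x, y)`, with the elements of the random set in place of the primes. -/
noncomputable def ratio {Ω : Type} (E : ℕ → Set Ω) (ω : Ω) (x y : ℝ) : ℝ :=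
  count E ω x y / (y / Real.log x)

/-- The question for the random set: for every `ε > 0` there is an `N > 1` such that
`|R(x, y) - 1| ≤ ε` for all `x ≥ N` and `(log x) ^ N ≤ y ≤ x`. -/
def Question {Ω : Type} (E : ℕ → Set Ω) (ω : Ω) : Prop :=
  ∀ ε : ℝ, 0 < ε → ∃ N : ℝ, 1 < N ∧ ∀ x y : ℝ, N ≤ x → Real.log x ^ N ≤ y → y ≤ x →
    |ratio E ω x y - 1| ≤ ε

/-- `R(x, y)` tends to `1` for `x → ∞`, uniformly for `(log x) ^ A ≤ y ≤ x`. -/
def LawFrom (A : ℝ) {Ω : Type} (E : ℕ → Set Ω) (ω : Ω) : Prop :=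
  ∀ ε : ℝ, 0 < ε → ∀ᶠ x : ℝ in atTop, ∀ y : ℝ, Real.log x ^ A ≤ y → y ≤ x →
    |ratio E ω x y - 1| ≤ ε

lemma LawFrom.question {A : ℝ} {Ω : Type} {E : ℕ → Set Ω} {ω : Ω} (h : LawFrom A E ω) :
    Question E ω := by
  intro ε hε
  obtain ⟨x₀, hx₀⟩ := eventually_atTop.1 (h ε hε)
  refine ⟨max (max A x₀) 3, by
    have := le_max_right (max A x₀) 3
    linarith, fun x y hx hy1 hy2 => ?_⟩
  have h1 : A ≤ max (max A x₀) 3 := (le_max_left _ _).trans (le_max_left _ _)
  have h2 : x₀ ≤ x := ((le_max_right _ _).trans (le_max_left _ _)).trans hx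
  have h3 : 3 ≤ x := (le_max_right _ _).trans hx
  have hlog : 1 ≤ Real.log x := by
    rw [Real.le_log_iff_exp_le (by linarith)]
    have := Real.exp_one_lt_d9
    linarith
  exact hx₀ x h2 y ((Real.rpow_le_rpow_of_exponent_le hlog h1).trans hy1) hy2

/-- Free intervals, with both ends large. -/
lemma free {A B : ℝ} (hA : 1 ≤ A) (hAB : A < B) {Ω : Type} {E : ℕ → Set Ω} {ω : Ω}
    (h : ∃ᶠ X : ℕ in atTop, ∃ x : ℕ, (x : ℝ) + Real.log X ^ B ≤ X ∧
      ∀ n : ℕ, x < n → (n : ℝ) ≤ x + Real.log X ^ B → ω ∉ E n) (x₀ : ℝ) :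
    ∃ x y : ℝ, x₀ ≤ x ∧ 3 ≤ x ∧ Real.log x ^ A ≤ y ∧ y ≤ x ∧ 0 < y ∧ count E ω x y = 0 := by
  have hlogt : Tendsto (fun x : ℕ => Real.log x) atTop atTop :=
    Real.tendsto_log_atTop.comp tendsto_natCast_atTop_atTop
  have hBA : Tendsto (fun X : ℕ => Real.log X ^ (B - A)) atTop atTop :=
    (tendsto_rpow_atTop (by linarith : 0 < B - A)).comp hlogt
  obtain ⟨X, ⟨x, hx1, hx2⟩, hX1, hX2⟩ := (h.and_eventually
    ((hlogt.eventually_ge_atTop (max x₀ 3)).and (hBA.eventually_ge_atTop 3))).exists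
  have hl3 : 3 ≤ Real.log X := (le_max_right _ _).trans hX1
  have hlx : x₀ ≤ Real.log X := (le_max_left _ _).trans hX1
  set y : ℝ := Real.log X ^ A with hy
  have hyl : Real.log X ≤ y := by
    calc Real.log X = Real.log X ^ (1:ℝ) := (Real.rpow_one _).symm
      _ ≤ y := Real.rpow_le_rpow_of_exponent_le (by linarith) hA
  have hB : Real.log X ^ B = y * Real.log X ^ (B - A) := by
    rw [hy, ← Real.rpow_add (by linarith)]
    congr 1
    ring
  have hB3 : y + y + 1 ≤ Real.log X ^ B := by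
    rw [hB]
    nlinarith
  set a : ℕ := ⌈y⌉₊ with ha
  have ha1 : y ≤ a := Nat.le_ceil y
  have ha2 : (a : ℝ) < y + 1 := Nat.ceil_lt_add_one (by linarith)
  have hx0 : (0:ℝ) ≤ x := Nat.cast_nonneg x
  refine ⟨((x + a : ℕ) : ℝ), y, ?_, ?_, ?_, ?_, by linarith, ?_⟩
  · push_cast
    linarith
  · push_cast
    linarith
  · apply Real.rpow_le_rpow
    · apply Real.log_nonneg
      push_cast
      linarith
    · apply Real.log_le_log
      · push_cast
        linarith
      · push_cast
        linarith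
    · linarith
  · push_cast
    linarith
  · unfold count
    have : {n : ℕ | ((x + a : ℕ) : ℝ) < n ∧ (n : ℝ) ≤ ((x + a : ℕ) : ℝ) + y ∧ ω ∈ E n} = ∅ := by
      rw [Set.eq_empty_iff_forall_notMem]
      rintro n ⟨h1, h2, h3⟩
      have h4 : x + a < n := by exact_mod_cast h1
      push_cast at h2
      exact hx2 n (by omega) (by linarith) h3
    rw [this, Set.ncard_empty]

lemma not_law {A : ℝ} {Ω : Type} {E : ℕ → Set Ω} {ω : Ω}
    (h : ∀ x₀ : ℝ, ∃ x y : ℝ, x₀ ≤ x ∧ Real.log x ^ A ≤ y ∧ y ≤ x ∧ count E ω x y = 0) :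
    ¬ LawFrom A E ω := by
  intro hL
  obtain ⟨x₀, hx₀⟩ := eventually_atTop.1 (hL (1 / 2) (by norm_num))
  obtain ⟨x, y, h1, h2, h3, h4⟩ := h x₀
  have h5 := hx₀ x h1 y h2 h3
  unfold ratio at h5
  rw [h4] at h5
  norm_num at h5

lemma LawFrom.mono {a b : ℝ} (hab : a ≤ b) {Ω : Type} {E : ℕ → Set Ω} {ω : Ω} (h : LawFrom a E ω) :
    LawFrom b E ω := by
  intro ε hε
  filter_upwards [h ε hε, eventually_ge_atTop 3] with x hx hx3 y hy1 hy2
  have hlog : 1 ≤ Real.log x := by
    rw [Real.le_log_iff_exp_le (by linarith)]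
    have := Real.exp_one_lt_d9
    linarith
  exact hx y ((Real.rpow_le_rpow_of_exponent_le hlog hab).trans hy1) hy2

lemma free_freq {A B : ℝ} (hAB : max A 1 < B) {Ω : Type} {E : ℕ → Set Ω} {ω : Ω}
    (h : ∃ᶠ X : ℕ in atTop, ∃ x : ℕ, (x : ℝ) + Real.log X ^ B ≤ X ∧
      ∀ n : ℕ, x < n → (n : ℝ) ≤ x + Real.log X ^ B → ω ∉ E n) (x₀ : ℝ) :
    ∃ x y : ℝ, x₀ ≤ x ∧ Real.log x ^ A ≤ y ∧ y ≤ x ∧ count E ω x y = 0 := by
  obtain ⟨x, y, h1, h13, h2, h3, -, h4⟩ := free (A := max A 1) (B := B) (le_max_right _ _) hAB h x₀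
  have hlog : 1 ≤ Real.log x := by
    rw [Real.le_log_iff_exp_le (by linarith)]
    have := Real.exp_one_lt_d9
    linarith
  exact ⟨x, y, h1, (Real.rpow_le_rpow_of_exponent_le hlog (le_max_left _ _)).trans h2, h3, h4⟩

lemma loglog_large (K : ℝ) : ∀ᶠ n : ℕ in atTop, 1 ≤ Real.log (Real.log n) ∧ Real.exp 1 ≤ Real.log n ∧
    K ≤ Real.log n / Real.log (Real.log n) := by
  have hlogt : Tendsto (fun x : ℕ => Real.log x) atTop atTop :=
    Real.tendsto_log_atTop.comp tendsto_natCast_atTop_atTop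
  have hllt : Tendsto (fun x : ℕ => Real.log (Real.log x)) atTop atTop := Real.tendsto_log_atTop.comp hlogt
  filter_upwards [hllt.eventually_ge_atTop 1, hlogt.eventually_ge_atTop (Real.exp 1),
    Pool.Agent.H453.LI.loglog_small (1 / (max K 1)) (by positivity)] with n h1 h2 h3
  refine ⟨h1, h2, ?_⟩
  rw [le_div_iff₀ (by linarith)]
  have h4 : K ≤ max K 1 := le_max_left _ _
  have h5 : 0 < max K 1 := by positivity
  have h6 : max K 1 * Real.log (Real.log n) ≤ Real.log n := by
    have := mul_le_mul_of_nonneg_left h3 h5.le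
    refine this.trans (le_of_eq ?_)
    field_simp
  nlinarith

/-- `log n / log log n` is nondecreasing. -/
lemma ratio_mono {m n : ℕ} (h : Real.exp 1 ≤ Real.log m) (hmn : m ≤ n) (hm : 0 < m) :
    Real.log m / Real.log (Real.log m) ≤ Real.log n / Real.log (Real.log n) := by
  have h1 : Real.log m ≤ Real.log n :=
    Real.log_le_log (by exact_mod_cast hm) (by exact_mod_cast hmn)
  have h11 : Real.log (Real.log n) / Real.log n ≤ Real.log (Real.log m) / Real.log m :=
    Real.log_div_self_antitoneOn h (h.trans h1) h1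
  have he : 1 < Real.exp 1 := by
    have := Real.add_one_le_exp (1:ℝ)
    linarith
  have h12 : 0 < Real.log (Real.log n) / Real.log n := by
    apply div_pos _ (by linarith)
    exact Real.log_pos (by linarith)
  have := one_div_le_one_div_of_le h12 h11
  rw [one_div_div, one_div_div] at this
  exact this

lemma sup_small {c : ℝ} {κ : ℕ → ℕ} (hc : 0 < c)
    (hκ : (∀ᶠ n : ℕ in atTop, (κ n : ℝ) ≤ c * (Real.log n / Real.log (Real.log n))) ∨
      Monotone κ ∧ ∃ᶠ n : ℕ in atTop, (κ n : ℝ) ≤ c * (Real.log n / Real.log (Real.log n))) :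
    ∃ᶠ X : ℕ in atTop, ∀ n : ℕ, 3 ≤ n → n ≤ X →
      (κ n : ℝ) ≤ c * (Real.log X / Real.log (Real.log X)) := by
  rcases hκ with hκ | ⟨hmono, hκ⟩
  · apply Eventually.frequently
    obtain ⟨n₀, hn₀⟩ := eventually_atTop.1 (hκ.and (loglog_large 1))
    set C : ℕ := (Finset.range (n₀ + 1)).sup κ with hC
    filter_upwards [loglog_large ((C : ℝ) / c), eventually_ge_atTop 1] with X hX hX1 n hn3 hnX
    rcases le_or_gt n n₀ with h | h
    · have h1 : κ n ≤ C := Finset.le_sup (f := κ) (Finset.mem_range.2 (by omega))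
      have h2 : (κ n : ℝ) ≤ C := by exact_mod_cast h1
      have h3 := hX.2.2
      rw [div_le_iff₀ hc] at h3
      linarith
    · obtain ⟨h1, -, h2, -⟩ := hn₀ n h.le
      exact h1.trans (mul_le_mul_of_nonneg_left (ratio_mono h2 hnX (by omega)) hc.le)
  · refine hκ.mono fun X hX n _ hnX => ?_
    have h1 : (κ n : ℝ) ≤ κ X := by exact_mod_cast hmono hnX
    exact h1.trans hX

/-- **The order of independence and the exponent of the uniform law.** -/
theorem result :
    -- (1) orders at least `c log n / log log n`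
    (∀ (c : ℝ) (κ : ℕ → ℕ), 0 < c →
      (∀ᶠ n : ℕ in atTop, c * (Real.log n / Real.log (Real.log n)) ≤ κ n) →
      ∀ (Ω : Type) [MeasurableSpace Ω] (P : Measure Ω) [IsProbabilityMeasure P] (E : ℕ → Set Ω),
        CramerModel P κ E → ∀ᵐ ω ∂P, Question E ω ∧
          (∀ a : ℝ, 2 + 2 / c < a → LawFrom a E ω) ∧ ∀ a : ℝ, a < 2 → ¬ LawFrom a E ω) ∧
    -- (2) the exponent `2 + 2 / c` is optimal
    (∀ (c : ℝ) (κ : ℕ → ℕ), 0 < c →
      ((∀ᶠ n : ℕ in atTop, (κ n : ℝ) ≤ c * (Real.log n / Real.log (Real.log n))) ∨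
        Monotone κ ∧ ∃ᶠ n : ℕ in atTop, (κ n : ℝ) ≤ c * (Real.log n / Real.log (Real.log n))) →
      ∃ (Ω : Type) (_ : MeasurableSpace Ω) (P : Measure Ω) (_ : IsProbabilityMeasure P)
        (E : ℕ → Set Ω), CramerModel P κ E ∧
        ∀ᵐ ω ∂P, ∀ a : ℝ, a < 2 + 2 / c → ¬ LawFrom a E ω ∧
          ∀ x₀ : ℝ, ∃ x y : ℝ, x₀ ≤ x ∧ Real.log x ^ a ≤ y ∧ y ≤ x ∧ count E ω x y = 0) ∧
    -- (3) all exponents from `2` to `2 + 2 / c` occur
    (∀ (c : ℝ) (κ : ℕ → ℕ), 0 < c →
      (∀ᶠ n : ℕ in atTop, (κ n : ℝ) ≤ c * (Real.log n / Real.log (Real.log n))) →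
      ∀ v : ℝ, 2 ≤ v → v ≤ 2 + 2 / c →
      ∃ (Ω : Type) (_ : MeasurableSpace Ω) (P : Measure Ω) (_ : IsProbabilityMeasure P)
        (E : ℕ → Set Ω), CramerModel P κ E ∧
        ∀ᵐ ω ∂P, (∀ a : ℝ, v < a → LawFrom a E ω) ∧ ∀ a : ℝ, a < v → ¬ LawFrom a E ω) ∧
    -- (4) the exponent for all models
    (∀ κ : ℕ → ℕ, Monotone κ → ∀ b : ℝ, 2 ≤ b →
      ((∀ a : ℝ, b < a → ∀ (Ω : Type) (_ : MeasurableSpace Ω) (P : Measure Ω) (_ : IsProbabilityMeasure P)
          (E : ℕ → Set Ω), CramerModel P κ E → ∀ᵐ ω ∂P, LawFrom a E ω) ↔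
        ∀ c : ℝ, 0 < c → c * (b - 2) < 2 →
          ∀ᶠ n : ℕ in atTop, c * (Real.log n / Real.log (Real.log n)) ≤ κ n)) ∧
    -- (5) the order for the question
    ∀ κ : ℕ → ℕ, Monotone κ →
      ((¬ ∃ c : ℝ, 0 < c ∧ ∀ᶠ n : ℕ in atTop, c * (Real.log n / Real.log (Real.log n)) ≤ κ n) →
        ∃ (Ω : Type) (_ : MeasurableSpace Ω) (P : Measure Ω) (_ : IsProbabilityMeasure P)
          (E : ℕ → Set Ω), CramerModel P κ E ∧ ∀ᵐ ω ∂P, ¬ Question E ω) ∧
      ((∀ (Ω : Type) (_ : MeasurableSpace Ω) (P : Measure Ω) (_ : IsProbabilityMeasure P)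
          (E : ℕ → Set Ω), CramerModel P κ E → ∀ᵐ ω ∂P, Question E ω) ↔
        ∃ c : ℝ, 0 < c ∧ ∀ᶠ n : ℕ in atTop, c * (Real.log n / Real.log (Real.log n)) ≤ κ n) := by
  have law : ∀ (c a : ℝ) (κ : ℕ → ℕ), 0 < c → 2 + 2 / c < a →
      (∀ᶠ n : ℕ in atTop, c * (Real.log n / Real.log (Real.log n)) ≤ κ n) →
      ∀ (Ω : Type) [MeasurableSpace Ω] (P : Measure Ω) [IsProbabilityMeasure P] (E : ℕ → Set Ω),
        CramerModel P κ E → ∀ᵐ ω ∂P, LawFrom a E ω := by
    intro c a κ hc ha hκ Ω _ P _ E hM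
    filter_upwards [Pool.Agent.H453.PO.poly_asymp hc ha ⟨hM.meas, hM.indep⟩ hκ] with ω hω ε hε
    filter_upwards [hω ε hε, eventually_ge_atTop 1] with x hx hx1 y hy1 hy2
    have hy0 : 0 ≤ y := by
      refine le_trans ?_ hy1
      have := Real.log_nonneg hx1
      positivity
    have h3 := hx y hy1 hy2
    rw [← Q198.CI.ncard_eq E ω (by linarith) hy0] at h3
    unfold ratio count
    rw [div_div_eq_mul_div]
    exact h3
  have law_gt : ∀ (v : ℝ) (κ : ℕ → ℕ), 2 ≤ v →
      (∀ c : ℝ, 0 < c → c * (v - 2) < 2 →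
        ∀ᶠ n : ℕ in atTop, c * (Real.log n / Real.log (Real.log n)) ≤ κ n) →
      ∀ (Ω : Type) [MeasurableSpace Ω] (P : Measure Ω) [IsProbabilityMeasure P] (E : ℕ → Set Ω),
        CramerModel P κ E → ∀ᵐ ω ∂P, ∀ a : ℝ, v < a → LawFrom a E ω := by
    intro v κ hv hκ Ω _ P _ E hM
    have h1 : ∀ᵐ ω ∂P, ∀ r : ℕ, LawFrom (v + 1 / ((r : ℝ) + 1)) E ω := by
      rw [ae_all_iff]
      intro r
      have hr : (0:ℝ) < 1 / ((r : ℝ) + 1) := by positivity
      obtain ⟨m, hm1, hm2⟩ := exists_between (show v < v + 1 / ((r : ℝ) + 1) by linarith)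
      have hm0 : 0 < m - 2 := by linarith
      have hc : 0 < 2 / (m - 2) := by positivity
      refine law (2 / (m - 2)) _ κ hc ?_ (hκ _ hc ?_) Ω P E hM
      · rw [div_div_eq_mul_div]
        have : 2 * (m - 2) / 2 = m - 2 := by ring
        rw [this]
        linarith
      · rw [div_mul_eq_mul_div, div_lt_iff₀ hm0]
        linarith
    filter_upwards [h1] with ω hω a ha
    obtain ⟨r, hr⟩ := exists_nat_one_div_lt (show 0 < a - v by linarith)
    exact (hω r).mono (by linarith)
  have one : ∀ (c : ℝ) (κ : ℕ → ℕ), 0 < c →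
      (∀ᶠ n : ℕ in atTop, c * (Real.log n / Real.log (Real.log n)) ≤ κ n) →
      ∀ (Ω : Type) [MeasurableSpace Ω] (P : Measure Ω) [IsProbabilityMeasure P] (E : ℕ → Set Ω),
        CramerModel P κ E → ∀ᵐ ω ∂P, Question E ω ∧
          (∀ a : ℝ, 2 + 2 / c < a → LawFrom a E ω) ∧ ∀ a : ℝ, a < 2 → ¬ LawFrom a E ω := by
    intro c κ hc hκ Ω _ P _ E hM
    have h1 : ∀ᵐ ω ∂P, ∀ r : ℕ, LawFrom (2 + 2 / c + 1 / ((r : ℝ) + 1)) E ω := by
      rw [ae_all_iff]
      intro r
      refine law c _ κ hc ?_ hκ Ω P E hM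
      have : (0:ℝ) < 1 / ((r : ℝ) + 1) := by positivity
      linarith
    have h2 : ∀ᵐ ω ∂P, ∀ r : ℕ, ∃ᶠ X : ℕ in atTop, ∃ x : ℕ,
        (x : ℝ) + Real.log X ^ (2 - 1 / ((r : ℝ) + 2)) ≤ X ∧
        ∀ n : ℕ, x < n → (n : ℝ) ≤ x + Real.log X ^ (2 - 1 / ((r : ℝ) + 2)) → ω ∉ E n := by
      rw [ae_all_iff]
      intro r
      refine Pool.Agent.H453.PO.two_lower hc ?_ ⟨hM.meas, hM.indep⟩ hκ
      have : (0:ℝ) < 1 / ((r : ℝ) + 2) := by positivity
      linarith
    filter_upwards [h1, h2] with ω hω hω2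
    refine ⟨(hω 0).question, fun a ha => ?_, fun a ha => ?_⟩
    · obtain ⟨r, hr⟩ := exists_nat_one_div_lt (show 0 < a - (2 + 2 / c) by linarith)
      exact (hω r).mono (by linarith)
    · obtain ⟨r, hr⟩ := exists_nat_one_div_lt (show 0 < min (2 - a) (1 / 2) by
        apply lt_min
        · linarith
        · norm_num)
      have h3 : (1:ℝ) / ((r : ℝ) + 2) ≤ 1 / ((r : ℝ) + 1) :=
        one_div_le_one_div_of_le (by positivity) (by linarith)
      have h4 := min_le_left (2 - a) (1 / 2)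
      have h5 := min_le_right (2 - a) (1 / 2)
      refine not_law fun x₀ => free_freq (B := 2 - 1 / ((r : ℝ) + 2)) ?_ (hω2 r) x₀
      apply max_lt
      · linarith
      · linarith
  have two : ∀ (c : ℝ) (κ : ℕ → ℕ), 0 < c →
      ((∀ᶠ n : ℕ in atTop, (κ n : ℝ) ≤ c * (Real.log n / Real.log (Real.log n))) ∨
        Monotone κ ∧ ∃ᶠ n : ℕ in atTop, (κ n : ℝ) ≤ c * (Real.log n / Real.log (Real.log n))) →
      ∃ (Ω : Type) (_ : MeasurableSpace Ω) (P : Measure Ω) (_ : IsProbabilityMeasure P)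
        (E : ℕ → Set Ω), CramerModel P κ E ∧
        ∀ᵐ ω ∂P, ∀ a : ℝ, a < 2 + 2 / c → ¬ LawFrom a E ω ∧
          ∀ x₀ : ℝ, ∃ x y : ℝ, x₀ ≤ x ∧ Real.log x ^ a ≤ y ∧ y ≤ x ∧ count E ω x y = 0 := by
    intro c κ hc hκ
    have hc2 : 0 < 2 / c := by positivity
    obtain ⟨Ω, mΩ, P, hP, E, hM, hE⟩ := Pool.Agent.H453.PO.freq_lower hc (sup_small hc hκ)
    refine ⟨Ω, mΩ, P, hP, E, ⟨hM.meas, hM.indep⟩, ?_⟩
    filter_upwards [hE] with ω hω a ha
    have hA1 : max a 1 < 2 + 2 / c := max_lt ha (by linarith)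
    obtain ⟨B, hB1, hB2⟩ := exists_between hA1
    have hfree : ∀ x₀ : ℝ, ∃ x y : ℝ, x₀ ≤ x ∧ Real.log x ^ a ≤ y ∧ y ≤ x ∧ count E ω x y = 0 :=
      fun x₀ => free_freq (B := B) hB1 (hω B hB2) x₀
    exact ⟨not_law hfree, hfree⟩
  have three : ∀ (c : ℝ) (κ : ℕ → ℕ), 0 < c →
      (∀ᶠ n : ℕ in atTop, (κ n : ℝ) ≤ c * (Real.log n / Real.log (Real.log n))) →
      ∀ v : ℝ, 2 ≤ v → v ≤ 2 + 2 / c →
      ∃ (Ω : Type) (_ : MeasurableSpace Ω) (P : Measure Ω) (_ : IsProbabilityMeasure P)
        (E : ℕ → Set Ω), CramerModel P κ E ∧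
        ∀ᵐ ω ∂P, (∀ a : ℝ, v < a → LawFrom a E ω) ∧ ∀ a : ℝ, a < v → ¬ LawFrom a E ω := by
    intro c κ hc hκ v hv hvc
    rcases hv.eq_or_lt with hv2 | hv2
    · -- full independence near every integer
      obtain ⟨Ω, mΩ, P, hP, E, hM, -⟩ := Q198.CI.block_model2 (fun n => κ n + n)
      have hM' : CramerModel P (fun n => κ n + n) E := ⟨hM.meas, hM.indep⟩
      have hM'' := hM.mono (κ' := κ) (fun n => Nat.le_add_right _ _)
      refine ⟨Ω, mΩ, P, hP, E, ⟨hM''.meas, hM''.indep⟩, ?_⟩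
      have hbig : ∀ c : ℝ, 0 < c →
          ∀ᶠ n : ℕ in atTop, c * (Real.log n / Real.log (Real.log n)) ≤ ((κ n + n : ℕ) : ℝ) := by
        intro c hc
        have h1 : ∀ᶠ n : ℕ in atTop, Real.log (n : ℝ) ≤ 1 / c * n :=
          tendsto_natCast_atTop_atTop.eventually (Q198.CI.ev_log (show 0 < 1 / c by positivity))
        filter_upwards [h1, loglog_large 1, eventually_ge_atTop 1] with n h2 h3 h4
        have h5 : Real.log n / Real.log (Real.log n) ≤ Real.log n :=
          div_le_self (Real.log_natCast_nonneg n) h3.1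
        have h6 : c * Real.log n ≤ n := by
          have := mul_le_mul_of_nonneg_left h2 hc.le
          refine this.trans (le_of_eq ?_)
          field_simp
        have h7 := mul_le_mul_of_nonneg_left h5 hc.le
        have h8 : (0:ℝ) ≤ κ n := Nat.cast_nonneg _
        push_cast
        linarith
      filter_upwards [law_gt v _ hv (fun c hc _ => hbig c hc) Ω P E hM',
        one 1 _ one_pos (hbig 1 one_pos) Ω P E hM'] with ω h1 h2
      refine ⟨h1, fun a ha => h2.2.2 a (by linarith)⟩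
    · have hv0 : 0 < v - 2 := by linarith
      obtain ⟨c', hc'⟩ : ∃ c', c' = 2 / (v - 2) := ⟨_, rfl⟩
      have hc'0 : 0 < c' := by
        rw [hc']
        positivity
      have hvc' : 2 + 2 / c' = v := by
        rw [hc', div_div_eq_mul_div]
        have : 2 * (v - 2) / 2 = v - 2 := by ring
        rw [this]
        ring
      have hcc' : c ≤ c' := by
        rw [hc', le_div_iff₀ hv0]
        have h1 : v - 2 ≤ 2 / c := by linarith
        rw [le_div_iff₀ hc] at h1
        linarith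
      set κ' : ℕ → ℕ := fun n => max (κ n) ⌊c' * (Real.log n / Real.log (Real.log n))⌋₊ with hκ'
      have hup : ∀ᶠ n : ℕ in atTop, (κ' n : ℝ) ≤ c' * (Real.log n / Real.log (Real.log n)) := by
        filter_upwards [hκ, loglog_large 1] with n h1 h2
        have h3 : 0 ≤ Real.log n / Real.log (Real.log n) := by linarith [h2.2.2]
        simp only [hκ', Nat.cast_max]
        apply max_le
        · exact h1.trans (mul_le_mul_of_nonneg_right hcc' h3)
        · exact Nat.floor_le (by positivity)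
      have hlo : ∀ c₁ : ℝ, 0 < c₁ → c₁ * (v - 2) < 2 →
          ∀ᶠ n : ℕ in atTop, c₁ * (Real.log n / Real.log (Real.log n)) ≤ κ' n := by
        intro c₁ hc₁ h1
        have h2 : c₁ < c' := by
          rw [hc', lt_div_iff₀ hv0]
          exact h1
        filter_upwards [loglog_large (1 / (c' - c₁))] with n h3
        have h4 := h3.2.2
        rw [div_le_iff₀ (by linarith)] at h4
        have h5 := Nat.lt_floor_add_one (c' * (Real.log n / Real.log (Real.log n)))
        simp only [hκ', Nat.cast_max]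
        refine le_trans ?_ (le_max_right _ _)
        nlinarith
      obtain ⟨Ω, mΩ, P, hP, E, hM, hE⟩ := two c' κ' hc'0 (Or.inl hup)
      have hMm : Q198.CI.Model P κ' E := ⟨hM.meas, hM.indep⟩
      have hM'' := hMm.mono (κ' := κ) (fun n => le_max_left _ _)
      refine ⟨Ω, mΩ, P, hP, E, ⟨hM''.meas, hM''.indep⟩, ?_⟩
      filter_upwards [law_gt v _ hv hlo Ω P E hM, hE] with ω h1 h2
      refine ⟨h1, fun a ha => (h2 a ?_).1⟩
      rw [hvc']
      exact ha
  have five : ∀ κ : ℕ → ℕ, Monotone κ →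
      (¬ ∃ c : ℝ, 0 < c ∧ ∀ᶠ n : ℕ in atTop, c * (Real.log n / Real.log (Real.log n)) ≤ κ n) →
        ∃ (Ω : Type) (_ : MeasurableSpace Ω) (P : Measure Ω) (_ : IsProbabilityMeasure P)
          (E : ℕ → Set Ω), CramerModel P κ E ∧ ∀ᵐ ω ∂P, ¬ Question E ω := by
    intro κ hmono hκ
    obtain ⟨Ω, mΩ, P, hP, E, hM, hE⟩ := Q198.CI.poly_not_suffices hmono hκ
    refine ⟨Ω, mΩ, P, hP, E, ⟨hM.meas, hM.indep⟩, ?_⟩
    filter_upwards [hE] with ω hω hQ
    obtain ⟨N, hN1, hN⟩ := hQ (1 / 2) (by norm_num)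
    obtain ⟨x, y, h1, -, h2, h3, -, h4⟩ := free (A := N) (B := N + 1) hN1.le (by linarith) (hω (N + 1)) N
    have h5 := hN x y h1 h2 h3
    unfold ratio at h5
    rw [h4] at h5
    norm_num at h5
  refine ⟨one, two, three, fun κ hmono b hb => ⟨?_, ?_⟩, fun κ hmono => ⟨five κ hmono, ?_, ?_⟩⟩
  · intro h c hc hcb
    by_contra hcon
    have hfreq : ∃ᶠ n : ℕ in atTop, (κ n : ℝ) ≤ c * (Real.log n / Real.log (Real.log n)) := by
      rw [Filter.Frequently]
      intro h1
      apply hcon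
      filter_upwards [h1] with n h2
      linarith
    have hbc : b < 2 + 2 / c := by
      have : b - 2 < 2 / c := by
        rw [lt_div_iff₀ hc]
        linarith
      linarith
    obtain ⟨a, ha1, ha2⟩ := exists_between hbc
    obtain ⟨Ω, mΩ, P, hP, E, hM, hE⟩ := two c κ hc (Or.inr ⟨hmono, hfreq⟩)
    obtain ⟨ω, h1, h2⟩ := ((h a ha1 Ω mΩ P hP E hM).and hE).exists
    exact (h2 a ha2).1 h1
  · intro h a ha Ω mΩ P hP E hM
    filter_upwards [law_gt b κ hb h Ω P E hM] with ω hω
    exact hω a ha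
  · intro h
    by_contra hc
    obtain ⟨Ω, mΩ, P, hP, E, hM, hE⟩ := five κ hmono hc
    obtain ⟨ω, h1, h2⟩ := ((h Ω mΩ P hP E hM).and hE).exists
    exact h2 h1
  · rintro ⟨c, hc, hκ⟩ Ω mΩ P hP E hM
    filter_upwards [one c κ hc hκ Ω P E hM] with ω hω
    exact hω.1

end Pool.Agent.Results.MP_293bbf_nt.ExactOrder
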