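import Pool.Agent.H204.AS.Thr4

open MeasureTheory Set Filter Topology
open scoped ENNReal ComplexConjugate

namespace Pool.Agent.Results.MP_293bbf_nt.ExactThresholds

/-!
# Exact thresholds for the law in short intervals

Q1 asks whether `R(x, y) → 1` uniformly for `y` above all powers of `log x`. In the model of
Beurling's generalised primes, with the Riemann hypothesis (or any other finite set of zeros to
the right of `1 / 2`), the Lindelöf bound, square-root error terms in the counting functions of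
the generalised integers and of the generalised primes and the law in almost all intervals, it is
shown that EVERY order `f ≤ x ^ (1 / 2 + o(1))` is an exact threshold for the law: `R(x, h(x))`
has the lower and upper limits `max(0, 1 - 1 / c)` and `1 + 1 / c` for every function `h` with
`h / f → c`, `0 ≤ c ≤ ∞`. Therefore Q1's law can hold and can fail. The construction uses the
engine of helper521 (`Pool.Agent.H521`).
-/

/-- A sequence of (Beurling) generalised primes `1 < p 0 < p 1 < ⋯ → ∞`. -/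
structure GenPrimes (p : ℕ → ℝ) : Prop where
  one_lt : 1 < p 0
  strictMono : StrictMono p
  tendsto : Tendsto p atTop atTop

/-- The generalised integer `∏ p_j ^ (e j)` with exponent vector `e`. -/
noncomputable def genInt (p : ℕ → ℝ) (e : ℕ →₀ ℕ) : ℝ := e.prod fun j k => p j ^ k

/-- `N_P(x)`, the number of generalised integers `≤ x`, counted with multiplicity. -/
noncomputable def countInts (p : ℕ → ℝ) (x : ℝ) : ℕ := Set.ncard {e : ℕ →₀ ℕ | genInt p e ≤ x}

/-- `π_P(x)`, the number of generalised primes `≤ x`. -/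
noncomputable def countPrimes (p : ℕ → ℝ) (x : ℝ) : ℕ := Set.ncard {j : ℕ | p j ≤ x}

/-- The zeta function `ζ_P(s) = ∑ n^{-s}` over the generalised integers. -/
noncomputable def zetaP (p : ℕ → ℝ) (s : ℂ) : ℂ := ∑' e : ℕ →₀ ℕ, ((genInt p e : ℝ) : ℂ) ^ (-s)

/-- The main term `∫_2^x (1 - ∑_{ρ ∈ Z} Re u^{ρ-1}) du / log u` of the prime counting function,
that is `li x - ∑_ρ li x^ρ` up to a constant, for a finite multiset `Z` of zeros. -/
noncomputable def primeMain (Z : Multiset ℂ) (x : ℝ) : ℝ :=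
  ∫ u in (2 : ℝ)..x, (1 - (Z.map fun ρ => ((u : ℂ) ^ (ρ - 1)).re).sum) / Real.log u

/-- `p` is a system of generalised primes whose zeta function continues to `Re s > 1/2`
with only a simple pole at `1`, with zeros exactly `Z` there (with multiplicity) and with the
Lindelöf bound, and with square-root error terms in the counting of generalised integers and
of generalised primes.  For `Z = 0` this is the Riemann hypothesis for `p`. -/
structure System (Z : Multiset ℂ) (p : ℕ → ℝ) : Prop where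
  primes : GenPrimes p
  summable : ∀ s : ℂ, 1 < s.re → Summable fun e : ℕ →₀ ℕ => ((genInt p e : ℝ) : ℂ) ^ (-s)
  zeta : ∃ g : ℂ → ℂ, DifferentiableOn ℂ g {s : ℂ | 1 / 2 < s.re} ∧
    (∀ s : ℂ, 1 < s.re → (s - 1) * zetaP p s = (Z.map fun ρ => s - ρ).prod * Complex.exp (g s)) ∧
    ∀ ε : ℝ, 0 < ε → ∃ C : ℝ, ∀ s : ℂ, 1 / 2 + ε ≤ s.re →
      ‖(Z.map fun ρ => s - ρ).prod * Complex.exp (g s)‖ ≤ C * (1 + ‖s‖) ^ (1 + ε)
  ints : ∃ κ : ℝ, 0 < κ ∧ ∀ ε : ℝ, 0 < ε → ∃ C : ℝ, ∀ x : ℝ, 1 ≤ x →
    |(countInts p x : ℝ) - κ * x| ≤ C * x ^ (1 / 2 + ε)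
  pnt : ∀ ε : ℝ, 0 < ε → ∃ C : ℝ, ∀ x : ℝ, 2 ≤ x →
    |(countPrimes p x : ℝ) - primeMain Z x| ≤ C * x ^ (1 / 2 + ε)

/-- The exceptional points: the `x ≥ 2` such that, for some `H` between `A log x` and `x`, the
number of primes in `(x, x + H]` differs from `H / log x` by more than `ε H / log x`. -/
def exceptional (p : ℕ → ℝ) (ε A : ℝ) : Set ℝ :=
  {x | 2 ≤ x ∧ ∃ H, A * Real.log x ≤ H ∧ H ≤ x ∧
    ε * (H / Real.log x) < |((countPrimes p (x + H) : ℝ) - countPrimes p x) - H / Real.log x|}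

/-- The law in almost all short intervals: for every `ε > 0` there is `A` such that the set of
the points `x` which are exceptional for `ε`, `A` has measure `O(X ^ (1/2 + δ))` up to `X`, for
every `δ > 0`. -/
def AlmostAll (p : ℕ → ℝ) : Prop := ∀ ε : ℝ, 0 < ε → ∃ A : ℝ, ∀ δ : ℝ, 0 < δ → ∃ K : ℝ,
  ∀ X : ℝ, 1 ≤ X → volume (exceptional p ε A ∩ Iic X) ≤ ENNReal.ofReal (K * X ^ (1 / 2 + δ))

/-- The ratio `R(x, y)` of the problem, for the generalised primes. -/
noncomputable def ratio (p : ℕ → ℝ) (x y : ℝ) : ℝ :=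
  ((countPrimes p (x + y) : ℝ) - countPrimes p x) / (y / Real.log x)

/-- The assertion of Q1 for the generalised primes. -/
def UniformLaw (p : ℕ → ℝ) : Prop := ∀ ε : ℝ, 0 < ε → ∃ N : ℝ, 1 < N ∧ ∀ x y : ℝ,
  N ≤ x → Real.log x ^ N ≤ y → y ≤ x → |ratio p x y - 1| ≤ ε

/-- An order: a function `f` of greater order than `log x` which is self-neglecting
(`f y / f x → 1` uniformly for `x ≤ y ≤ x + M f x`) and has bounded quotients
`f y / f x`, `f x / f y` for `x ≤ y ≤ 2 x`. -/
structure Order (f : ℝ → ℝ) : Prop where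
  large : Tendsto (fun x => f x / Real.log x) atTop atTop
  selfNeglecting : ∀ M ε : ℝ, 0 < ε → ∀ᶠ x in atTop, ∀ y, x ≤ y → y ≤ x + M * f x →
    |f y - f x| ≤ ε * f x
  doubling : ∃ C : ℝ, ∀ᶠ x in atTop, ∀ y, x ≤ y → y ≤ 2 * x → f y ≤ C * f x ∧ f x ≤ C * f y

/-- `f` is the exact threshold of the law for `p`: for every function `h` with `h(x) ≤ x` for
large `x`, `h(x) / log x → ∞` and `h(x) / f(x) → c`, where `0 ≤ c ≤ ∞`, the lower and upper limits
of `R(x, h(x))` are `max(0, 1 - 1 / c)` and `1 + 1 / c` (so `0` and `∞` for `c = 0`, and `1` and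
`1` for `c = ∞`). -/
def Threshold (p : ℕ → ℝ) (f : ℝ → ℝ) : Prop :=
  ∀ (h : ℝ → ℝ) (c : ℝ≥0∞), (∀ᶠ x in atTop, h x ≤ x) →
    Tendsto (fun x => h x / Real.log x) atTop atTop →
    Tendsto (fun x => ENNReal.ofReal (h x / f x)) atTop (𝓝 c) →
    liminf (fun x => ENNReal.ofReal (ratio p x (h x))) atTop = 1 - c⁻¹ ∧
      limsup (fun x => ENNReal.ofReal (ratio p x (h x))) atTop = 1 + c⁻¹

open Pool.Agent.H521 Pool.Agent.H521.G Pool.Agent.H204.SI Pool.Agent.H204.AS

/-- **Theorem.** Let `Z` be a finite conjugation-invariant multiset in `1 / 2 < Re s < 1`. (1) For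
an order `f(x) = x ^ (τ + o(1))` the following are equivalent: there is a system of generalised
primes with zeros `Z`, with the law in almost all intervals and with exact threshold `f`; there is
a system with zeros `Z` and exact threshold `f`; `τ ≤ 1 / 2`. (2) If the order `f` is the exact
threshold of a sequence of generalised primes, then the law of Q1 holds for it if `f` is
`O(log x ^ a)` for some `a`, and it fails if `f` is larger than every power of `log x`. (3) Both
cases occur: there are systems with zeros `Z`, with the law in almost all intervals and with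
`R(x, x ^ t) → 1` for all `0 < t < 1`, for which the law of Q1 holds, and others for which it
fails. -/
theorem result (Z : Multiset ℂ) (hZ : ∀ ρ ∈ Z, 1 / 2 < ρ.re ∧ ρ.re < 1) (hZc : Z.map conj = Z) :
    (∀ (f : ℝ → ℝ) (τ : ℝ), Order f →
      Tendsto (fun x => Real.log (f x) / Real.log x) atTop (𝓝 τ) → List.TFAE [
        ∃ p : ℕ → ℝ, System Z p ∧ AlmostAll p ∧ Threshold p f,
        ∃ p : ℕ → ℝ, System Z p ∧ Threshold p f,
        τ ≤ 1 / 2]) ∧
    (∀ (p : ℕ → ℝ) (f : ℝ → ℝ), Order f → (∀ᶠ x in atTop, f x ≤ x) → Threshold p f →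
      ((∃ a K : ℝ, ∀ᶠ x in atTop, f x ≤ K * Real.log x ^ a) → UniformLaw p) ∧
      ((∀ a : ℝ, Tendsto (fun x => f x / Real.log x ^ a) atTop atTop) → ¬UniformLaw p)) ∧
    ((∃ p : ℕ → ℝ, System Z p ∧ AlmostAll p ∧
        (∀ t : ℝ, 0 < t → t < 1 → Tendsto (fun x => ratio p x (x ^ t)) atTop (𝓝 1)) ∧
        UniformLaw p) ∧
      ∃ p : ℕ → ℝ, System Z p ∧ AlmostAll p ∧
        (∀ t : ℝ, 0 < t → t < 1 → Tendsto (fun x => ratio p x (x ^ t)) atTop (𝓝 1)) ∧
        ¬UniformLaw p) := by
  have hZ1 : ∀ ρ ∈ Z, ρ.re < 1 := fun ρ h => (hZ ρ h).2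
  have hsys : ∀ p : ℕ → ℝ, Sys Z p → System Z p := fun p hS =>
    ⟨⟨by linarith [hS.three_le 0], hS.mono, hS.tendsto⟩, hS.summable, hS.zeta, hS.ints, hS.pnt⟩
  have hlog2 := ord_of_reg2 log2_sc.large log2_sc.small (reg2_log (by norm_num : (1 : ℝ) < 2))
  have hes := ord_of_reg2 es_large (fun ε hε => es_le (by linarith : (0 : ℝ) < 1 / 2 + ε)) reg2_es
  refine ⟨fun f τ O hτ => ?_, fun p f O hfx P => ⟨?_, ?_⟩, ?_, ?_⟩
  · have hf := pos_of_large O.large
    tfae_have 1 → 2 := fun ⟨p, hS, _, h⟩ => ⟨p, hS, h⟩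
    tfae_have 2 → 3 := fun ⟨p, hS, P⟩ => tau_le hZ1 hS.pnt hf hτ P
    tfae_have 3 → 1 := by
      intro ht
      obtain ⟨p, h1, h2, h3⟩ := exists_profile hZ1 hZc
        (⟨O.large, fun ε hε => small_of_tau hf hτ (by linarith), O.doubling⟩ : Sc f)
        O.selfNeglecting
      exact ⟨p, hsys p h1, h2, h3⟩
    tfae_finish
  · rintro ⟨a, K, hfa⟩ ε hε
    exact Prof.law P (pos_of_large O.large) hfa hε
  · intro hfa hU
    apply Prof.not_law P (pos_of_large O.large) hfx _ (hU (1 / 2) (by norm_num))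
    intro a
    filter_upwards [(hfa a).eventually_ge_atTop 1,
      Real.tendsto_log_atTop.eventually_gt_atTop 0] with x a1 a2
    rwa [one_le_div (Real.rpow_pos_of_pos a2 _)] at a1
  · obtain ⟨p, h1, h2, h3, h4⟩ := exists_powers hZ1 hZc hlog2.1 hlog2.2 fun t ht => by
      filter_upwards [(log_rpow_over_rpow 2 t ht).eventually_le_const one_pos,
        eventually_gt_atTop 0] with x a1 a2
      rwa [div_le_one (Real.rpow_pos_of_pos a2 _)] at a1
    refine ⟨p, hsys p h1, h2, h4, fun ε hε => ?_⟩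
    exact Prof.law h3 (pos_of_large hlog2.1.large) (a := 2) (K := 1)
      (Eventually.of_forall fun x => (one_mul _).ge) hε
  · obtain ⟨p, h1, h2, h3, h4⟩ := exists_powers hZ1 hZc hes.1 hes.2 fun t ht => es_le ht
    refine ⟨p, hsys p h1, h2, h4, fun hU => ?_⟩
    exact Prof.not_law h3 (pos_of_large hes.1.large) hes.1.le_self es_ge
      (hU (1 / 2) (by norm_num))

end Pool.Agent.Results.MP_293bbf_nt.ExactThresholds
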