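import Pool.Agent.H564.UA.Final

/-!
# Uniform prime asymptotics in intervals longer than all log-powers, for random samples of the primes

For real weights `w` on the primes let `R_w(x, y) = (∑_{x < p ≤ x + y} w(p)) / (y / log x)` (`RR w x y`), and let Q1(`w`)
be the statement of the question for `w`: for every `ε > 0` there is `N > 1` with `|R_w(x, y) - 1| ≤ ε` whenever `x ≥ N` and
`(log x)^N ≤ y ≤ x` (`Uniform w`; `Uniform 1` is Q1, see (D)). We determine which random samples of the primes have the
property of the question, if the primes have it.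

* (A) Let the primes be chosen independently, `p` with a probability `δ_p ≥ (log p)^{-C}` (for large `p`; nothing else is
  assumed on the `δ_p`); give the chosen primes the weights `1/δ_p` and the others the weight `0`. Almost surely, for every
  `a > C + 2`, `|R_w(x, y) - R_1(x, y)| ≤ ε (1 + R_1(x, y))` for all `ε > 0`, `x ≥ x₀(ε)`, `(log x)^a ≤ y ≤ x`
  (`Close w 1 a`), and Q1(`w`) is equivalent to Q1.
* (B) If `δ_p ≤ (log p)^{-N}` for every `N` and `p ≥ p₀(N)`, then almost surely Q1(`v`) is false for ALL real weights `v`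
  which vanish outside the set of the chosen primes.
* (C) In general, if Q1(`w`) holds for any real weights `w`, then `w(p) ≠ 0` for at least `X / (log X)^N` primes `p ≤ X`,
  for some `N` and all large `X`.

So the sets of primes with the property of the question have at least `X / (log X)^{O(1)}` elements up to `X`, and if the
primes have it, then so do their random samples of this size. For `y` near `(log x)^a`, `a > C + 2`, also the
irregularities found by Maier are the same for the sample and for the primes.

Proof. (A): exponential moments for all intervals and the lemma of Borel and Cantelli; the error is compared with the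
number of primes in the interval, so that no upper bound for this number is needed. (C): there is a used prime in every
interval `(x, x + (log x)^N]`.
-/

set_option autoImplicit false

namespace Pool.Agent.Results.MP_293bbf_nt.LogPowerSamples

open MeasureTheory Filter Topology Classical ProbabilityTheory
open Pool.Agent.H564.UA

/-- **Q1 for random samples of the primes.** -/
theorem result :
    -- (A) samples of density at least a power of `1 / log p`
    (∀ (Ω : Type) [MeasurableSpace Ω] (μ : Measure Ω) [IsProbabilityMeasure μ]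
      (A : ℕ → Set Ω) (δ : ℕ → ℝ) (C : ℝ), (∀ p, MeasurableSet (A p)) → iIndepSet A μ →
      (∀ p, 0 < δ p) → (∀ p, μ (A p) = ENNReal.ofReal (δ p)) → 0 ≤ C →
      (∀ᶠ p : ℕ in atTop, p.Prime → Real.log p ^ (-C) ≤ δ p) →
      ∀ᵐ ω ∂μ,
        (∀ a : ℝ, C + 2 < a →
          Close (fun p => if ω ∈ A p then 1 / δ p else 0) (fun _ => 1) a) ∧
        (Uniform (fun p => if ω ∈ A p then 1 / δ p else 0) ↔ Uniform (fun _ => 1))) ∧
    -- (B) samples which are too sparse, with arbitrary weights
    (∀ (Ω : Type) [MeasurableSpace Ω] (μ : Measure Ω) [IsProbabilityMeasure μ]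
      (A : ℕ → Set Ω) (δ : ℕ → ℝ), (∀ p, MeasurableSet (A p)) → iIndepSet A μ →
      (∀ p, 0 < δ p) → (∀ p, μ (A p) = ENNReal.ofReal (δ p)) →
      (∀ N : ℝ, ∀ᶠ p : ℕ in atTop, p.Prime → δ p ≤ Real.log p ^ (-N)) →
      ∀ᵐ ω ∂μ, ∀ v : ℕ → ℝ, (∀ p, v p ≠ 0 → ω ∈ A p) → ¬ Uniform v) ∧
    -- (C) the size of all sets of primes with this property
    (∀ w : ℕ → ℝ, Uniform w → ∃ N : ℝ, 0 < N ∧
      ∀ᶠ X : ℕ in atTop, (X : ℝ) / Real.log X ^ N ≤ ((used w X).card : ℝ)) ∧
    -- (D) `Uniform 1` is the statement of the question
    (Uniform (fun _ => 1) ↔ ∀ ε : ℝ, 0 < ε → ∃ N : ℝ, 1 < N ∧ ∀ x y : ℝ,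
      N ≤ x → Real.log x ^ N ≤ y → y ≤ x →
      |((Nat.primeCounting ⌊x + y⌋₊ : ℝ) - (Nat.primeCounting ⌊x⌋₊ : ℝ)) / (y / Real.log x) - 1| ≤
        ε) := by
  refine ⟨?_, ?_, fun w h => size_lower h, uniform_iff⟩
  · intro Ω _ μ _ A δ C hA hind hδ hμ hC hd
    filter_upwards [close_all hA hind hδ hμ hC hd] with ω hω
    exact ⟨hω, of_uniform (hω (C + 3) (by linarith)), uniform_of (hω (C + 3) (by linarith))⟩
  · intro Ω _ μ _ A δ hA hind hδ hμ hd
    exact too_sparse hA hind hδ hμ hd

end Pool.Agent.Results.MP_293bbf_nt.LogPowerSamples
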